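import Mathlib
import Pool.Agent.Lib.MP_22b8ff_nt.Defs
import Pool.Agent.Lib.MP_22b8ff_nt.Kronecker
import Pool.Agent.Lib.MP_22b8ff_nt.Hybrid

set_option autoImplicit false

/-!
Full answer: for every prime `p` and every `α ∈ Bad_p`, the Kronecker - van der Corput hybrid
sequence `({nα}, φ_p(n))` has discrepancy `O((log N)^2 / N)`.
-/

namespace Pool.Agent.Results.MP_22b8ff_nt.HybridLowDiscrepancy

open Finset Pool.Agent.Lib.MP_22b8ff_nt

theorem ncard_eq (p : ℕ) (α a b : ℝ) (N : ℕ) :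
    (Set.ncard {n : ℕ | n < N ∧ hybrid p α n ∈ Set.Ico (0 : ℝ) a ×ˢ Set.Ico (0 : ℝ) b} : ℝ) =
      (hcnt p 0 α a b N : ℝ) := by
  classical
  have h1 : {n : ℕ | n < N ∧ hybrid p α n ∈ Set.Ico (0 : ℝ) a ×ˢ Set.Ico (0 : ℝ) b} =
      (((range N).filter fun n : ℕ => Int.fract (0 + (n : ℝ) * α) < a ∧ vdc p n < b :
        Finset ℕ) : Set ℕ) := by
    ext n
    simp only [hybrid, Set.mem_ofPred_eq, Set.mem_prod, Set.mem_Ico, Int.fract_nonneg, true_and,
      vdc_nonneg, Finset.coe_filter, Finset.mem_range, zero_add]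
  rw [h1, Set.ncard_coe_finset]
  unfold hcnt
  rw [Finset.sum_boole]
  norm_cast

/-- The explicit bound `N D_N ≤ errG p c N`. -/
theorem discrepancy_le (p : ℕ) [Fact p.Prime] (c : ℝ) (hc : 0 < c) (α : ℝ)
    (hα : BadConst p c α) (N : ℕ) (hN : 0 < N) :
    discrepancy (hybrid p α) N ≤ errG p c N / N := by
  have hNR : (0 : ℝ) < N := by exact_mod_cast hN
  unfold discrepancy
  have : Nonempty (Set.Icc (0 : ℝ) 1 × Set.Icc (0 : ℝ) 1) :=
    ⟨(⟨0, by simp⟩, ⟨0, by simp⟩)⟩
  apply ciSup_le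
  rintro ⟨⟨a, ha0, ha1⟩, ⟨b, hb0, hb1⟩⟩
  rw [ncard_eq]
  have h := hybrid_bound p c hc a ha0 ha1 N 0 α b hα hb0 hb1
  have h2 : (hcnt p 0 α a b N : ℝ) / N - a * b = ((hcnt p 0 α a b N : ℝ) - N * a * b) / N := by
    field_simp
  change |(hcnt p 0 α a b N : ℝ) / N - a * b| ≤ _
  rw [h2, abs_div, abs_of_pos hNR]
  gcongr

theorem discrepancy_nonneg (s : ℕ → ℝ × ℝ) (N : ℕ) : 0 ≤ discrepancy s N :=
  Real.iSup_nonneg fun _ => abs_nonneg _

/-- **Full answer to Q1.** If `p` is prime and `α ∈ Bad_p` then the hybrid sequence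
`({nα}, φ_p(n))` is a low discrepancy sequence. -/
theorem result (p : ℕ) (hp : p.Prime) (α : ℝ) (hα : α ∈ BadP p) :
    IsLowDiscrepancy (hybrid p α) := by
  have : Fact p.Prime := ⟨hp⟩
  obtain ⟨c, hc, hbad⟩ := badConst_of_mem p α hα
  have hlog43 : 0 < Real.log (4 / 3) := Real.log_pos (by norm_num)
  have hpR : (0 : ℝ) < p := by exact_mod_cast hp.pos
  unfold IsLowDiscrepancy
  apply Asymptotics.IsBigO.of_bound
    ((p * (3 + 3 / c) + p) * (1 + 1 / Real.log (4 / 3)))
  filter_upwards [Filter.eventually_ge_atTop 3] with N hN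
  have hNR : (3 : ℝ) ≤ N := by exact_mod_cast hN
  have hN0 : (0 : ℝ) < N := by linarith
  have hlog : 1 ≤ Real.log N := by
    have h1 : Real.exp 1 ≤ N := by
      have := Real.exp_one_lt_d9
      linarith
    have h2 := Real.log_le_log (Real.exp_pos 1) h1
    rwa [Real.log_exp] at h2
  rw [Real.norm_of_nonneg (discrepancy_nonneg _ _), Real.norm_of_nonneg (by positivity)]
  refine (discrepancy_le p c hc α hbad N (by omega)).trans ?_
  have h1 : p * errL c N + p ≤ (p * (3 + 3 / c) + p) * Real.log N := by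
    unfold errL
    have e1 : (0 : ℝ) < 3 / c := by positivity
    have e2 : 3 + 3 / c * Real.log N ≤ (3 + 3 / c) * Real.log N := by nlinarith
    have e3 : (p : ℝ) * (3 + 3 / c * Real.log N) ≤ p * ((3 + 3 / c) * Real.log N) :=
      mul_le_mul_of_nonneg_left e2 hpR.le
    have e4 : (p : ℝ) ≤ p * Real.log N := by nlinarith
    calc (p : ℝ) * (3 + 3 / c * Real.log N) + p
        ≤ p * ((3 + 3 / c) * Real.log N) + p * Real.log N := add_le_add e3 e4
      _ = (p * (3 + 3 / c) + p) * Real.log N := by ring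
  have h2 : 1 + Real.log N / Real.log (4 / 3) ≤ (1 + 1 / Real.log (4 / 3)) * Real.log N := by
    have : (1 + 1 / Real.log (4 / 3)) * Real.log N = Real.log N + Real.log N / Real.log (4 / 3) := by
      ring
    rw [this]
    linarith
  have h3 : errG p c N ≤ (p * (3 + 3 / c) + p) * (1 + 1 / Real.log (4 / 3)) * Real.log N ^ 2 := by
    unfold errG
    have hL := errL_nonneg c hc N
    calc (p * errL c N + p) * (1 + Real.log N / Real.log (4 / 3))
        ≤ ((p * (3 + 3 / c) + p) * Real.log N) * ((1 + 1 / Real.log (4 / 3)) * Real.log N) := by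
          apply mul_le_mul h1 h2
          · positivity
          · positivity
      _ = (p * (3 + 3 / c) + p) * (1 + 1 / Real.log (4 / 3)) * Real.log N ^ 2 := by ring
  rw [← mul_div_assoc]
  gcongr

end Pool.Agent.Results.MP_22b8ff_nt.HybridLowDiscrepancy
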